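import Pool.Agent.Lib_helper87.CPQ.PW

/-! The bilinear bound for sums over products of two primes. -/

set_option autoImplicit false

namespace Pool.Agent.CPQ87

open Finset Pool.Agent.Var73

/-- the saving of the large sieve for powers, `L = log X` -/
theorem bl_save {X : ℝ} (hX : 3 ≤ X) (DD : Finset ℕ) (D : ℕ) (hD : ∀ d ∈ DD, 1 ≤ d ∧ d ≤ D)
    (hDX : (D : ℝ) ≤ 3 * X) (hDL : Real.log X ^ 64 ≤ D)
    (ψ : ∀ d : ℕ, DirichletCharacter ℂ d) (hψ : ∀ d ∈ DD, (ψ d).IsPrimitive)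
    (S : Finset ℕ) (Q : ℕ) (hS : ∀ q ∈ S, q.Prime ∧ q ≤ Q) (hQL : Real.log X ^ 64 ≤ Q)
    (hQ3 : 2 ≤ Q) (a : ℕ → ℂ)
    (ha : ∀ q, ‖a q‖ ≤ 1) :
    (∑ d ∈ DD, ‖∑ q ∈ S, a q * ψ d (q : ZMod d)‖) ≤ 32 * (D * Q) / Real.log X ^ 7 := by
  set L := Real.log X with hL
  have hL1 : 1 ≤ L := by
    rw [hL, Real.le_log_iff_exp_le (by linarith)]
    have := Real.exp_one_lt_d9
    linarith
  have hD1 : 1 ≤ D := by
    have : (1 : ℝ) ≤ D := (one_le_pow₀ hL1).trans hDL
    exact_mod_cast this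
  have hDp : (0 : ℝ) < D := by exact_mod_cast hD1
  have hQp : (0 : ℝ) < Q := by
    have : (2 : ℝ) ≤ Q := by exact_mod_cast hQ3
    linarith
  set T := ∑ d ∈ DD, ‖∑ q ∈ S, a q * ψ d (q : ZMod d)‖ with hT
  have hT0 : 0 ≤ T := Finset.sum_nonneg fun d _ => norm_nonneg _
  -- the least exponent
  have hex : ∃ k : ℕ, D ^ 2 ≤ Q ^ k := by
    obtain ⟨k, hk⟩ := pow_unbounded_of_one_lt (D ^ 2) (show 1 < Q by omega)
    exact ⟨k, hk.le⟩
  classical
  set k := Nat.find hex with hk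
  have hkQ : D ^ 2 ≤ Q ^ k := Nat.find_spec hex
  rw [le_div_iff₀ (by positivity)]
  by_cases hcase : D ^ 2 ≤ Q
  · -- exponent one
    have h1 := pw_first DD D hD hD1 ψ hψ S Q hS a ha 1 le_rfl (by rwa [pow_one])
    rw [← hT] at h1
    have h2 : T ^ 2 * L ^ 64 ≤ (7 * (D * Q)) ^ 2 := by
      calc T ^ 2 * L ^ 64 ≤ T ^ 2 * D := mul_le_mul_of_nonneg_left hDL (by positivity)
        _ ≤ 44 * (D * Q) ^ 2 := by
          have := h1
          norm_num at this
          linarith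
        _ ≤ (7 * (D * Q)) ^ 2 := by
          rw [mul_pow 7]
          nlinarith [sq_nonneg ((D : ℝ) * Q)]
    have h3 : T * L ^ 32 ≤ 7 * (D * Q) := by
      refine le_of_sq_le_sq ?_ (by positivity)
      calc (T * L ^ 32) ^ 2 = T ^ 2 * L ^ 64 := by ring
        _ ≤ _ := h2
    calc T * L ^ 7 ≤ T * L ^ 32 :=
          mul_le_mul_of_nonneg_left (pow_le_pow_right₀ hL1 (by norm_num)) hT0
      _ ≤ 7 * (D * Q) := h3
      _ ≤ 32 * (D * Q) := by
        have : (0 : ℝ) ≤ D * Q := by positivity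
        linarith
  · -- at least two
    have hk2 : 2 ≤ k := by
      by_contra hcon
      have : k = 0 ∨ k = 1 := by omega
      rcases this with h0 | h0
      · rw [h0, pow_zero] at hkQ
        have : D ^ 2 ≤ Q := by
          have : 1 ≤ Q := by omega
          omega
        exact hcase this
      · rw [h0, pow_one] at hkQ
        exact hcase hkQ
    have hmin : Q ^ (k - 1) < D ^ 2 := by
      have := Nat.find_min hex (m := k - 1) (by omega)
      omega
    have hmin' : (Q : ℝ) ^ (k - 1) < (D : ℝ) ^ 2 := by exact_mod_cast hmin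
    have h1 := pw_first DD D hD hD1 ψ hψ S Q hS a ha k (by omega) hkQ
    rw [← hT] at h1
    -- D is large
    have hDbig : L ^ (16 * k) ≤ D := by
      refine le_of_sq_le_sq ?_ hDp.le
      calc (L ^ (16 * k)) ^ 2 = L ^ (32 * k) := by rw [← pow_mul]; congr 1; ring
        _ ≤ L ^ (64 * (k - 1)) := pow_le_pow_right₀ hL1 (by omega)
        _ = (L ^ 64) ^ (k - 1) := by rw [← pow_mul]
        _ ≤ (Q : ℝ) ^ (k - 1) := pow_le_pow_left₀ (by positivity) hQL _
        _ ≤ (D : ℝ) ^ 2 := hmin'.le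
    -- k is small
    have hksmall : (k : ℝ) ≤ 9 * L := by
      have h2 : Real.exp (((k - 1 : ℕ) : ℝ) * Real.log 2) ≤ Real.exp (3 + 2 * L) := by
        calc Real.exp (((k - 1 : ℕ) : ℝ) * Real.log 2) = (2 : ℝ) ^ (k - 1) := by
              rw [Real.exp_nat_mul, Real.exp_log (by norm_num)]
          _ ≤ (Q : ℝ) ^ (k - 1) := by
            refine pow_le_pow_left₀ (by norm_num) ?_ _
            exact_mod_cast hQ3
          _ ≤ (D : ℝ) ^ 2 := hmin'.le
          _ ≤ (3 * X) ^ 2 := pow_le_pow_left₀ hDp.le hDX 2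
          _ = 9 * X ^ 2 := by ring
          _ ≤ Real.exp 3 * Real.exp (2 * L) := by
            have h4 : Real.exp (2 * L) = X ^ 2 := by
              rw [mul_comm, Real.exp_mul, Real.exp_log (by linarith)]
              norm_num
            rw [h4]
            refine mul_le_mul_of_nonneg_right ?_ (by positivity)
            have h5 : Real.exp 3 = Real.exp 1 ^ 3 := by
              rw [← Real.exp_nat_mul]; norm_num
            rw [h5]
            have h6 := Real.exp_one_gt_d9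
            have h7 : (2.7 : ℝ) ^ 3 ≤ Real.exp 1 ^ 3 :=
              pow_le_pow_left₀ (by norm_num) (by linarith) 3
            norm_num at h7
            linarith
          _ = Real.exp (3 + 2 * L) := by rw [Real.exp_add]
      have h3 := Real.exp_le_exp.1 h2
      have h4 := Real.log_two_gt_d9
      rw [Nat.cast_sub (by omega)] at h3
      push_cast at h3
      have h5 : ((k : ℝ) - 1) * 0.69 ≤ 3 + 2 * L := by
        have h6 : (0 : ℝ) ≤ (k : ℝ) - 1 := by
          have : (1 : ℝ) ≤ k := by exact_mod_cast (by omega : 1 ≤ k)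
          linarith
        calc ((k : ℝ) - 1) * 0.69 ≤ ((k : ℝ) - 1) * Real.log 2 :=
              mul_le_mul_of_nonneg_left (by linarith) h6
          _ ≤ _ := h3
      linarith
    have h5 : (44 : ℝ) * (k : ℝ) ^ k * L ^ (14 * k) ≤ 32 ^ (2 * k) * D := by
      calc (44 : ℝ) * (k : ℝ) ^ k * L ^ (14 * k) ≤ 44 * (9 * L) ^ k * L ^ (14 * k) := by
            gcongr
        _ = (44 * 9 ^ k) * L ^ (15 * k) := by
            rw [mul_pow]
            have : L ^ (15 * k) = L ^ k * L ^ (14 * k) := by rw [← pow_add]; congr 1; ring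
            rw [this]; ring
        _ ≤ (44 ^ k * 9 ^ k) * L ^ (16 * k) := by
            have h6 : (44 : ℝ) ≤ 44 ^ k := le_self_pow₀ (by norm_num) (by omega)
            have h7 : L ^ (15 * k) ≤ L ^ (16 * k) := pow_le_pow_right₀ hL1 (by omega)
            gcongr
        _ = 396 ^ k * L ^ (16 * k) := by rw [← mul_pow]; norm_num
        _ ≤ 1024 ^ k * D := by
            gcongr
            norm_num
        _ = 32 ^ (2 * k) * D := by rw [pow_mul]; norm_num
    have h6 : (T * L ^ 7) ^ (2 * k) * D ≤ (32 * (D * Q)) ^ (2 * k) * D := by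
      calc (T * L ^ 7) ^ (2 * k) * D = (T ^ (2 * k) * D) * L ^ (14 * k) := by
            rw [mul_pow, ← pow_mul]
            have : 7 * (2 * k) = 14 * k := by ring
            rw [this]; ring
        _ ≤ (44 * (k : ℝ) ^ k * ((D : ℝ) * Q) ^ (2 * k)) * L ^ (14 * k) :=
            mul_le_mul_of_nonneg_right h1 (by positivity)
        _ = (44 * (k : ℝ) ^ k * L ^ (14 * k)) * ((D : ℝ) * Q) ^ (2 * k) := by ring
        _ ≤ (32 ^ (2 * k) * D) * ((D : ℝ) * Q) ^ (2 * k) :=
            mul_le_mul_of_nonneg_right h5 (by positivity)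
        _ = (32 * (D * Q)) ^ (2 * k) * D := by rw [mul_pow]; ring
    have h7 := le_of_mul_le_mul_right h6 hDp
    exact le_of_pow_le_pow_left₀ (by omega) (by positivity) h7

/-- the pairs of primes, both larger than `(log X)^64`, of product at most `X` -/
noncomputable def blS (X : ℝ) : Finset (ℕ × ℕ) := by
  classical
  exact ((Icc 1 ⌊X⌋₊) ×ˢ (Icc 1 ⌊X⌋₊)).filter (fun x => x.1.Prime ∧ x.2.Prime ∧
    Real.log X ^ 64 < x.1 ∧ Real.log X ^ 64 < x.2 ∧ (x.1 * x.2 : ℝ) ≤ X)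

/-- pairs of primes with product in a set -/
theorem bl_pairs (E : Finset (ℕ × ℕ)) (hE : ∀ x ∈ E, x.1.Prime ∧ x.2.Prime) (M : Finset ℕ)
    (hM : ∀ x ∈ E, x.1 * x.2 ∈ M) : E.card ≤ 2 * M.card := by
  classical
  refine Finset.card_le_mul_card_image_of_maps_to (f := fun x => x.1 * x.2) hM 2 ?_
  intro n _
  have : (E.filter fun x => x.1 * x.2 = n) ⊆
      {(n.minFac, n / n.minFac), (n / n.minFac, n.minFac)} := by
    intro x hx
    rw [Finset.mem_filter] at hx
    obtain ⟨h1, h2⟩ := hE x hx.1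
    have hn := hx.2
    rw [Finset.mem_insert, Finset.mem_singleton]
    have hn1 : n ≠ 1 := by
      rw [← hn]
      intro h
      exact h1.one_lt.ne' (Nat.eq_one_of_mul_eq_one_right h)
    have hmp := Nat.minFac_prime hn1
    have hd : n.minFac ∣ x.1 * x.2 := by rw [hn]; exact Nat.minFac_dvd n
    rcases hmp.dvd_mul.1 hd with h | h
    · left
      have h3 : n.minFac = x.1 := (Nat.prime_dvd_prime_iff_eq hmp h1).1 h
      refine Prod.ext h3.symm ?_
      simp only
      rw [h3, ← hn, Nat.mul_div_cancel_left _ h1.pos]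
    · right
      have h3 : n.minFac = x.2 := (Nat.prime_dvd_prime_iff_eq hmp h2).1 h
      refine Prod.ext ?_ h3.symm
      simp only
      rw [h3, ← hn, Nat.mul_div_cancel _ h2.pos]
  exact (Finset.card_le_card this).trans Finset.card_le_two

/-- one group of primes -/
theorem bl_group {X : ℝ} (hX : 3 ≤ X) (ψ : ∀ d : ℕ, DirichletCharacter ℂ d)
    (β : ℕ → ℂ) (hβ : ∀ q, ‖β q‖ ≤ 1) (G S : Finset ℕ) (R : ℝ) (hR : 1 ≤ R)
    (hG : ∀ p ∈ G, p.Prime ∧ (ψ p).IsPrimitive ∧ Real.log X ^ 64 < p ∧ (p : ℝ) ≤ 3 * R)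
    (hRX : R ≤ X)
    (hS : ∀ q ∈ S, q.Prime ∧ Real.log X ^ 64 < q ∧ (q : ℝ) ≤ X / R) :
    ∑ p ∈ G, ‖∑ q ∈ S, β q * ψ p (q : ZMod p)‖ ≤ 96 * X / Real.log X ^ 7 := by
  set L := Real.log X with hL
  have hL1 : 1 ≤ L := by
    rw [hL, Real.le_log_iff_exp_le (by linarith)]
    have := Real.exp_one_lt_d9
    linarith
  have hpos : 0 ≤ 96 * X / L ^ 7 := by positivity
  rcases G.eq_empty_or_nonempty with hGe | ⟨p₀, hp₀⟩
  · rw [hGe, Finset.sum_empty]; exact hpos
  rcases S.eq_empty_or_nonempty with hSe | ⟨q₀, hq₀⟩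
  · rw [hSe]; simpa using hpos
  have hR3 : 0 ≤ 3 * R := by linarith
  have hXR : 0 ≤ X / R := by positivity
  have h1 := bl_save hX G ⌊3 * R⌋₊ (fun p hp => ⟨(hG p hp).1.one_lt.le, Nat.le_floor (hG p hp).2.2.2⟩)
    ((Nat.floor_le hR3).trans (by linarith)) ?_ ψ (fun p hp => (hG p hp).2.1) S ⌊X / R⌋₊
    (fun q hq => ⟨(hS q hq).1, Nat.le_floor (hS q hq).2.2⟩) ?_ ?_ β hβ
  · refine h1.trans ?_
    rw [← hL]
    refine div_le_div_of_nonneg_right ?_ (by positivity)
    have h2 := Nat.floor_le hR3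
    have h3 := Nat.floor_le hXR
    calc 32 * ((⌊3 * R⌋₊ : ℝ) * (⌊X / R⌋₊ : ℝ)) ≤ 32 * ((3 * R) * (X / R)) := by gcongr
      _ = 96 * X := by field_simp; ring
  · refine (hG p₀ hp₀).2.2.1.le.trans ?_
    exact_mod_cast Nat.le_floor (hG p₀ hp₀).2.2.2
  · refine (hS q₀ hq₀).2.1.le.trans ?_
    exact_mod_cast Nat.le_floor (hS q₀ hq₀).2.2
  · exact (hS q₀ hq₀).1.two_le.trans (Nat.le_floor (hS q₀ hq₀).2.2)

theorem bl_main {X : ℝ} (hX : 3 ≤ X) (ψ : ∀ d : ℕ, DirichletCharacter ℂ d) (α β : ℕ → ℂ)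
    (hα : ∀ p, ‖α p‖ ≤ 1) (hβ : ∀ q, ‖β q‖ ≤ 1)
    (hψ : ∀ p, p.Prime → α p ≠ 0 → (ψ p).IsPrimitive) :
    ‖∑ x ∈ blS X, α x.1 * β x.2 * ψ x.1 (x.2 : ZMod x.1)‖ ≤ 300 * X / Real.log X ^ 2 := by
  classical
  set L := Real.log X with hL
  have hL1 : 1 ≤ L := by
    rw [hL, Real.le_log_iff_exp_le (by linarith)]
    have := Real.exp_one_lt_d9
    linarith
  have hX0 : 0 < X := by linarith
  set M := ⌊X⌋₊ with hM
  set P := (Icc 1 M).filter (fun p : ℕ => p.Prime ∧ L ^ 64 < (p : ℝ) ∧ α p ≠ 0) with hP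
  set S := (Icc 1 M).filter (fun q : ℕ => q.Prime ∧ L ^ 64 < (q : ℝ)) with hS
  set jj : ℕ → ℕ := fun p => ⌊L ^ 2 * Real.log p⌋₊ with hjj
  set PP : ℕ → ℝ := fun j => Real.exp (j / L ^ 2) with hPP
  set SS : ℕ → Finset ℕ := fun j => S.filter (fun q : ℕ => (q : ℝ) ≤ X / PP j) with hSS
  have hPPpos : ∀ j, 0 < PP j := fun j => Real.exp_pos _
  -- each prime is close to the left end of its interval
  have hPle : ∀ p : ℕ, 1 ≤ p → PP (jj p) ≤ p := by
    intro p hp
    have hp0 : (0 : ℝ) < p := by exact_mod_cast hp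
    have hlog : 0 ≤ Real.log p := Real.log_nonneg (by exact_mod_cast hp)
    rw [hPP]
    simp only
    rw [← Real.le_log_iff_exp_le hp0, div_le_iff₀ (by positivity), mul_comm]
    exact Nat.floor_le (by positivity)
  have hPge : ∀ p : ℕ, 1 ≤ p → (p : ℝ) ≤ PP (jj p) * (1 + 2 / L ^ 2) := by
    intro p hp
    have hp0 : (0 : ℝ) < p := by exact_mod_cast hp
    have h1 : L ^ 2 * Real.log p < jj p + 1 := Nat.lt_floor_add_one _
    have h2 : Real.log p ≤ (jj p : ℝ) / L ^ 2 + 1 / L ^ 2 := by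
      rw [← add_div, le_div_iff₀ (by positivity)]
      linarith
    have h3 : (p : ℝ) ≤ Real.exp ((jj p : ℝ) / L ^ 2 + 1 / L ^ 2) :=
      (Real.log_le_iff_le_exp hp0).1 h2
    rw [Real.exp_add] at h3
    refine h3.trans ?_
    refine mul_le_mul_of_nonneg_left ?_ (Real.exp_pos _).le
    set t := 1 / L ^ 2 with ht
    have ht0 : 0 ≤ t := by positivity
    have ht1 : t ≤ 1 := by
      rw [ht, div_le_one (by positivity)]
      exact one_le_pow₀ hL1
    have h4 : Real.exp t ≤ 1 + 2 * t := by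
      have h5 : |Real.exp t - 1 - t| ≤ t ^ 2 :=
        Real.abs_exp_sub_one_sub_id_le (by rw [abs_of_nonneg ht0]; exact ht1)
      have h6 := (abs_le.1 h5).2
      nlinarith
    have : 2 / L ^ 2 = 2 * t := by rw [ht]; ring
    rw [this]
    exact h4
  have hjle : ∀ p ∈ P, jj p ∈ Finset.range (⌊L ^ 3⌋₊ + 1) := by
    intro p hp
    rw [hP, Finset.mem_filter, Finset.mem_Icc] at hp
    rw [Finset.mem_range, Nat.lt_succ_iff]
    refine Nat.floor_le_floor ?_
    have hpX : (p : ℝ) ≤ X := (Nat.le_floor_iff hX0.le).1 hp.1.2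
    have hp0 : (0 : ℝ) < p := by exact_mod_cast hp.1.1
    calc L ^ 2 * Real.log p ≤ L ^ 2 * L := by
          refine mul_le_mul_of_nonneg_left ?_ (by positivity)
          exact Real.log_le_log hp0 hpX
      _ = L ^ 3 := by ring
  -- step 1
  have h1 : ∑ x ∈ blS X, α x.1 * β x.2 * ψ x.1 (x.2 : ZMod x.1) =
      ∑ p ∈ P, α p * ∑ q ∈ S.filter (fun q : ℕ => (p * q : ℝ) ≤ X), β q * ψ p (q : ZMod p) := by
    rw [blS, Finset.sum_filter, Finset.sum_product, hP, Finset.sum_filter]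
    refine Finset.sum_congr rfl fun p _ => ?_
    by_cases hpc : p.Prime ∧ L ^ 64 < (p : ℝ) ∧ α p ≠ 0
    · rw [if_pos hpc, Finset.mul_sum, hS, Finset.filter_filter, Finset.sum_filter]
      refine Finset.sum_congr rfl fun q _ => ?_
      by_cases hqc : (q.Prime ∧ L ^ 64 < (q : ℝ)) ∧ (p * q : ℝ) ≤ X
      · rw [if_pos hqc, if_pos ⟨hpc.1, hqc.1.1, hpc.2.1, hqc.1.2, hqc.2⟩]
        ring
      · rw [if_neg hqc, if_neg]
        rintro ⟨_, h2, _, h4, h5⟩
        exact hqc ⟨⟨h2, h4⟩, h5⟩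
    · rw [if_neg hpc]
      refine Finset.sum_eq_zero fun q _ => ?_
      split_ifs with h
      · have : α p = 0 := by
          by_contra hne
          exact hpc ⟨h.1, h.2.2.1, hne⟩
        simp only
        rw [this]; ring
      · rfl
  -- step 2
  have h2 : ∀ p ∈ P, ‖α p * ∑ q ∈ S.filter (fun q : ℕ => (p * q : ℝ) ≤ X), β q * ψ p (q : ZMod p)‖ ≤
      ‖∑ q ∈ SS (jj p), β q * ψ p (q : ZMod p)‖ +
        (((SS (jj p)).filter (fun q : ℕ => X < (p * q : ℝ))).card : ℝ) := by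
    intro p hp
    have hp' := hp
    rw [hP, Finset.mem_filter, Finset.mem_Icc] at hp'
    have hp0 : (0 : ℝ) < p := by exact_mod_cast hp'.1.1
    have hsub : S.filter (fun q : ℕ => (p * q : ℝ) ≤ X) =
        (SS (jj p)).filter (fun q : ℕ => ¬ X < (p * q : ℝ)) := by
      ext q
      simp only [hSS, Finset.mem_filter, not_lt]
      constructor
      · rintro ⟨ha, hb⟩
        refine ⟨⟨ha, ?_⟩, hb⟩
        rw [le_div_iff₀ (hPPpos _)]
        calc (q : ℝ) * PP (jj p) ≤ q * p :=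
              mul_le_mul_of_nonneg_left (hPle p hp'.1.1) (by positivity)
          _ = p * q := mul_comm _ _
          _ ≤ X := hb
      · rintro ⟨⟨ha, _⟩, hb⟩
        exact ⟨ha, hb⟩
    have hsplit := Finset.sum_filter_add_sum_filter_not (SS (jj p))
      (fun q : ℕ => X < (p * q : ℝ)) (fun q => β q * ψ p (q : ZMod p))
    rw [hsub, norm_mul]
    have h3 : ‖α p‖ * ‖∑ q ∈ (SS (jj p)).filter (fun q : ℕ => ¬ X < (p * q : ℝ)),
        β q * ψ p (q : ZMod p)‖ ≤ ‖∑ q ∈ (SS (jj p)).filter (fun q : ℕ => ¬ X < (p * q : ℝ)),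
        β q * ψ p (q : ZMod p)‖ := mul_le_of_le_one_left (norm_nonneg _) (hα p)
    refine h3.trans ?_
    have h4 : ∑ q ∈ (SS (jj p)).filter (fun q : ℕ => ¬ X < (p * q : ℝ)), β q * ψ p (q : ZMod p) =
        ∑ q ∈ SS (jj p), β q * ψ p (q : ZMod p) -
          ∑ q ∈ (SS (jj p)).filter (fun q : ℕ => X < (p * q : ℝ)), β q * ψ p (q : ZMod p) := by
      rw [← hsplit]; ring
    rw [h4]
    refine (norm_sub_le _ _).trans ?_
    gcongr
    refine (norm_sum_le _ _).trans ?_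
    rw [Finset.card_eq_sum_ones, Nat.cast_sum]
    refine Finset.sum_le_sum fun q _ => ?_
    rw [norm_mul, Nat.cast_one]
    exact mul_le_one₀ (hβ q) (norm_nonneg _) (DirichletCharacter.norm_le_one _ _)
  -- step 3
  have h3 : ∑ p ∈ P, ‖∑ q ∈ SS (jj p), β q * ψ p (q : ZMod p)‖ ≤ 192 * X / L ^ 2 := by
    rw [← Finset.sum_fiberwise_of_maps_to hjle]
    have h4 : ∀ j ∈ Finset.range (⌊L ^ 3⌋₊ + 1), ∑ p ∈ P.filter (fun p => jj p = j),
        ‖∑ q ∈ SS (jj p), β q * ψ p (q : ZMod p)‖ ≤ 96 * X / L ^ 7 := by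
      intro j hj
      rw [Finset.mem_range, Nat.lt_succ_iff] at hj
      have h5 : ∑ p ∈ P.filter (fun p => jj p = j),
          ‖∑ q ∈ SS (jj p), β q * ψ p (q : ZMod p)‖ =
          ∑ p ∈ P.filter (fun p => jj p = j),
          ‖∑ q ∈ SS j, β q * ψ p (q : ZMod p)‖ := by
        refine Finset.sum_congr rfl fun p hp => ?_
        rw [(Finset.mem_filter.1 hp).2]
      rw [h5]
      refine bl_group hX ψ β hβ _ _ (PP j) (Real.one_le_exp (by positivity)) ?_ ?_ ?_
      · intro p hp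
        rw [Finset.mem_filter] at hp
        obtain ⟨hp1, hp2⟩ := hp
        rw [hP, Finset.mem_filter, Finset.mem_Icc] at hp1
        refine ⟨hp1.2.1, hψ p hp1.2.1 hp1.2.2.2, hp1.2.2.1, ?_⟩
        have h6 := hPge p hp1.1.1
        rw [hp2] at h6
        refine h6.trans ?_
        rw [mul_comm]
        refine mul_le_mul_of_nonneg_right ?_ (hPPpos j).le
        have : 2 / L ^ 2 ≤ 2 := div_le_self (by norm_num) (one_le_pow₀ hL1)
        linarith
      · have : (j : ℝ) ≤ L ^ 3 := (Nat.le_floor_iff (by positivity)).1 hj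
        rw [hPP]
        simp only
        calc Real.exp (j / L ^ 2) ≤ Real.exp L := by
              rw [Real.exp_le_exp, div_le_iff₀ (by positivity)]
              calc (j : ℝ) ≤ L ^ 3 := this
                _ = L * L ^ 2 := by ring
          _ = X := Real.exp_log hX0
      · intro q hq
        rw [hSS] at hq
        simp only [Finset.mem_filter, hS] at hq
        exact ⟨hq.1.2.1, hq.1.2.2, hq.2⟩
    refine (Finset.sum_le_sum h4).trans ?_
    rw [Finset.sum_const, Finset.card_range, nsmul_eq_mul]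
    have h7 : ((⌊L ^ 3⌋₊ + 1 : ℕ) : ℝ) ≤ 2 * L ^ 3 := by
      push_cast
      have := Nat.floor_le (show 0 ≤ L ^ 3 by positivity)
      have h8 : 1 ≤ L ^ 3 := one_le_pow₀ hL1
      linarith
    calc ((⌊L ^ 3⌋₊ + 1 : ℕ) : ℝ) * (96 * X / L ^ 7) ≤ (2 * L ^ 3) * (96 * X / L ^ 7) :=
          mul_le_mul_of_nonneg_right h7 (by positivity)
      _ = 192 * X / L ^ 4 := by field_simp; ring
      _ ≤ 192 * X / L ^ 2 := by
          refine div_le_div_of_nonneg_left (by positivity) (by positivity) ?_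
          exact pow_le_pow_right₀ hL1 (by norm_num)
  -- step 4
  have h4 : ∑ p ∈ P, (((SS (jj p)).filter (fun q : ℕ => X < (p * q : ℝ))).card : ℝ) ≤
      12 * X / L ^ 2 := by
    have hE : ((P.sigma fun p => (SS (jj p)).filter (fun q : ℕ => X < (p * q : ℝ))).card : ℝ) =
        ∑ p ∈ P, (((SS (jj p)).filter (fun q : ℕ => X < (p * q : ℝ))).card : ℝ) := by
      rw [Finset.card_sigma]; push_cast; rfl
    rw [← hE]
    set E := (P.sigma fun p => (SS (jj p)).filter (fun q : ℕ => X < (p * q : ℝ))).image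
      (fun x : (_ : ℕ) × ℕ => (x.1, x.2)) with hEd
    have hcard : E.card = (P.sigma fun p => (SS (jj p)).filter (fun q : ℕ => X < (p * q : ℝ))).card := by
      rw [hEd]
      refine Finset.card_image_of_injOn ?_
      rintro ⟨a, b⟩ _ ⟨c, d⟩ _ h
      simp only [Prod.mk.injEq] at h
      obtain ⟨rfl, rfl⟩ := h
      rfl
    rw [← hcard]
    set Y := X * (1 + 2 / L ^ 2) with hY
    have hY0 : 0 ≤ Y := by positivity
    have hmem : ∀ x ∈ E, (x.1.Prime ∧ x.2.Prime) ∧ x.1 * x.2 ∈ Finset.Ioc ⌊X⌋₊ ⌊Y⌋₊ := by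
      intro x hx
      rw [hEd, Finset.mem_image] at hx
      obtain ⟨⟨p, q⟩, hy, rfl⟩ := hx
      rw [Finset.mem_sigma] at hy
      obtain ⟨hp, hq'⟩ := hy
      simp only at hp hq'
      obtain ⟨hq, hlt⟩ := Finset.mem_filter.1 hq'
      rw [hP, Finset.mem_filter, Finset.mem_Icc] at hp
      simp only [hSS, hS, Finset.mem_filter] at hq
      refine ⟨⟨hp.2.1, hq.1.2.1⟩, ?_⟩
      rw [Finset.mem_Ioc, Nat.floor_lt hX0.le, Nat.le_floor_iff hY0]
      push_cast
      refine ⟨hlt, ?_⟩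
      have h6 := hPge p hp.1.1
      calc (p : ℝ) * q ≤ (PP (jj p) * (1 + 2 / L ^ 2)) * (X / PP (jj p)) :=
            mul_le_mul h6 hq.2 (by positivity) (by positivity)
        _ = Y := by
            rw [hY]
            have := (hPPpos (jj p)).ne'
            field_simp
    have h5 := bl_pairs E (fun x hx => (hmem x hx).1) _ (fun x hx => (hmem x hx).2)
    rw [Nat.card_Ioc] at h5
    have h6 : (E.card : ℝ) ≤ 2 * ((⌊Y⌋₊ : ℝ) - ⌊X⌋₊) := by
      have h7 : ⌊X⌋₊ ≤ ⌊Y⌋₊ := Nat.floor_le_floor (by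
        rw [hY]
        have : 0 ≤ X * (2 / L ^ 2) := by positivity
        linarith)
      have h8 : (E.card : ℝ) ≤ ((2 * (⌊Y⌋₊ - ⌊X⌋₊) : ℕ) : ℝ) := by exact_mod_cast h5
      rw [Nat.cast_mul, Nat.cast_sub h7] at h8
      exact_mod_cast h8
    have h7 := Nat.floor_le hY0
    have h8 := Nat.lt_floor_add_one X
    have h9 : L ^ 2 ≤ 4 * X := by
      have h10 : L = 2 * Real.log (Real.sqrt X) := by
        rw [Real.log_sqrt hX0.le, hL]; ring
      have h11 : Real.log (Real.sqrt X) ≤ Real.sqrt X :=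
        (Real.log_le_sub_one_of_pos (Real.sqrt_pos.2 hX0)).trans (by linarith)
      have h12 : L ≤ 2 * Real.sqrt X := by linarith
      calc L ^ 2 ≤ (2 * Real.sqrt X) ^ 2 := pow_le_pow_left₀ (by linarith) h12 2
        _ = 4 * X := by rw [mul_pow, Real.sq_sqrt hX0.le]; norm_num
    have h10 : 1 ≤ 4 * X / L ^ 2 := by
      rw [le_div_iff₀ (by positivity), one_mul]; exact h9
    have h11 : Y = X + 2 * X / L ^ 2 := by rw [hY]; ring
    have h12 : 12 * X / L ^ 2 = 4 * X / L ^ 2 + 2 * (4 * X / L ^ 2) := by ring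
    have h13 : 4 * X / L ^ 2 = 2 * (2 * X / L ^ 2) := by ring
    linarith
  rw [h1]
  refine (norm_sum_le _ _).trans ((Finset.sum_le_sum h2).trans ?_)
  rw [Finset.sum_add_distrib]
  have h5 : (300 : ℝ) * X / L ^ 2 = 192 * X / L ^ 2 + 12 * X / L ^ 2 + 96 * X / L ^ 2 := by ring
  have h6 : 0 ≤ 96 * X / L ^ 2 := by positivity
  linarith

end Pool.Agent.CPQ87
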