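import Pool.Agent.Lib_helper73.Var.LS

/-! The large sieve for powers: sums over primes to prime moduli. -/

set_option autoImplicit false

namespace Pool.Agent.CPQ87

open Finset Pool.Agent.Var73

/-- at most `k!` ordered factorisations into `k` primes -/
theorem pw_fib (S : Finset ℕ) (hS : ∀ q ∈ S, q.Prime) (k m : ℕ) :
    ((Fintype.piFinset (fun _ : Fin k => S)).filter (fun f => ∏ i, f i = m)).card ≤ k.factorial := by
  classical
  have h1 : ((Fintype.piFinset (fun _ : Fin k => S)).filter (fun f => ∏ i, f i = m)).card ≤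
      ((m.primeFactorsList.permutations).toFinset).card := by
    refine Finset.card_le_card_of_injOn (fun f => List.ofFn f) ?_ ?_
    · intro f hf
      rw [Finset.mem_coe, Finset.mem_filter, Fintype.mem_piFinset] at hf
      rw [Finset.mem_coe, List.mem_toFinset, List.mem_permutations]
      refine Nat.primeFactorsList_unique ?_ ?_
      · rw [List.prod_ofFn]; exact hf.2
      · intro p hp
        rw [List.mem_ofFn] at hp
        obtain ⟨i, rfl⟩ := hp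
        exact hS _ (hf.1 i)
    · intro f _ g _ h
      exact List.ofFn_injective h
  by_cases h0 : ((Fintype.piFinset (fun _ : Fin k => S)).filter (fun f => ∏ i, f i = m)).Nonempty
  · obtain ⟨f, hf⟩ := h0
    rw [Finset.mem_filter, Fintype.mem_piFinset] at hf
    have h2 : m.primeFactorsList.length = k := by
      have : (List.ofFn f).Perm m.primeFactorsList := by
        refine Nat.primeFactorsList_unique ?_ ?_
        · rw [List.prod_ofFn]; exact hf.2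
        · intro p hp
          rw [List.mem_ofFn] at hp
          obtain ⟨i, rfl⟩ := hp
          exact hS _ (hf.1 i)
      rw [← this.length_eq, List.length_ofFn]
    calc _ ≤ _ := h1
      _ ≤ (m.primeFactorsList.permutations).length := List.toFinset_card_le _
      _ = k.factorial := by rw [List.length_permutations, h2]
  · rw [Finset.not_nonempty_iff_eq_empty] at h0
    rw [h0]
    simp

/-- the coefficients of the `k`-th power -/
noncomputable def pwb (S : Finset ℕ) (a : ℕ → ℂ) (k m : ℕ) : ℂ :=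
  ∑ f ∈ (Fintype.piFinset (fun _ : Fin k => S)).filter (fun f => ∏ i, f i = m), ∏ i, a (f i)

theorem pw_pow (S : Finset ℕ) (Q : ℕ) (hS : ∀ q ∈ S, q.Prime ∧ q ≤ Q) (a : ℕ → ℂ) (k : ℕ)
    {d : ℕ} (ψ : DirichletCharacter ℂ d) :
    (∑ q ∈ S, a q * ψ (q : ZMod d)) ^ k =
      ∑ m ∈ Ioc 0 (0 + Q ^ k), pwb S a k m * ψ (m : ZMod d) := by
  classical
  have h1 : (∑ q ∈ S, a q * ψ (q : ZMod d)) ^ k =
      ∏ _i : Fin k, ∑ q ∈ S, a q * ψ (q : ZMod d) := by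
    rw [Finset.prod_const, Finset.card_univ, Fintype.card_fin]
  rw [h1, Finset.prod_univ_sum]
  have hm : ∀ f ∈ Fintype.piFinset (fun _ : Fin k => S), (∏ i, f i) ∈ Ioc 0 (0 + Q ^ k) := by
    intro f hf
    rw [Fintype.mem_piFinset] at hf
    rw [Finset.mem_Ioc]
    refine ⟨Finset.prod_pos fun i _ => (hS _ (hf i)).1.pos, ?_⟩
    rw [zero_add]
    calc ∏ i, f i ≤ ∏ _i : Fin k, Q := Finset.prod_le_prod' fun i _ => (hS _ (hf i)).2
      _ = Q ^ k := by rw [Finset.prod_const, Finset.card_univ, Fintype.card_fin]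
  rw [← Finset.sum_fiberwise_of_maps_to hm]
  refine Finset.sum_congr rfl fun m _ => ?_
  rw [pwb, Finset.sum_mul]
  refine Finset.sum_congr rfl fun f hf => ?_
  rw [Finset.mem_filter] at hf
  rw [Finset.prod_mul_distrib, ← map_prod]
  congr 2
  rw [← hf.2]
  push_cast
  rfl

theorem pw_norm (S : Finset ℕ) (_hS : ∀ q ∈ S, q.Prime) (a : ℕ → ℂ) (ha : ∀ q, ‖a q‖ ≤ 1)
    (k m : ℕ) : ‖pwb S a k m‖ ≤
      (((Fintype.piFinset (fun _ : Fin k => S)).filter (fun f => ∏ i, f i = m)).card : ℝ) := by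
  rw [pwb]
  refine (norm_sum_le _ _).trans ?_
  rw [Finset.card_eq_sum_ones, Nat.cast_sum]
  refine Finset.sum_le_sum fun f _ => ?_
  rw [norm_prod, Nat.cast_one]
  exact Finset.prod_le_one (fun _ _ => norm_nonneg _) fun i _ => ha _

theorem pw_sq (S : Finset ℕ) (Q : ℕ) (hS : ∀ q ∈ S, q.Prime ∧ q ≤ Q) (a : ℕ → ℂ)
    (ha : ∀ q, ‖a q‖ ≤ 1) (k : ℕ) :
    ∑ m ∈ Ioc 0 (0 + Q ^ k), ‖pwb S a k m‖ ^ 2 ≤ (k.factorial : ℝ) * (S.card : ℝ) ^ k := by
  classical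
  have hm : ∀ f ∈ Fintype.piFinset (fun _ : Fin k => S), (∏ i, f i) ∈ Ioc 0 (0 + Q ^ k) := by
    intro f hf
    rw [Fintype.mem_piFinset] at hf
    rw [Finset.mem_Ioc]
    refine ⟨Finset.prod_pos fun i _ => (hS _ (hf i)).1.pos, ?_⟩
    rw [zero_add]
    calc ∏ i, f i ≤ ∏ _i : Fin k, Q := Finset.prod_le_prod' fun i _ => (hS _ (hf i)).2
      _ = Q ^ k := by rw [Finset.prod_const, Finset.card_univ, Fintype.card_fin]
  have hc := Finset.card_eq_sum_card_fiberwise hm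
  rw [Fintype.card_piFinset, Finset.prod_const, Finset.card_univ, Fintype.card_fin] at hc
  have h1 : ∀ m ∈ Ioc 0 (0 + Q ^ k), ‖pwb S a k m‖ ^ 2 ≤ (k.factorial : ℝ) *
      (((Fintype.piFinset (fun _ : Fin k => S)).filter (fun f => ∏ i, f i = m)).card : ℝ) := by
    intro m _
    have h2 := pw_norm S (fun q hq => (hS q hq).1) a ha k m
    have h3 : (((Fintype.piFinset (fun _ : Fin k => S)).filter
        (fun f => ∏ i, f i = m)).card : ℝ) ≤ k.factorial := by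
      exact_mod_cast pw_fib S (fun q hq => (hS q hq).1) k m
    rw [sq]
    exact mul_le_mul (h2.trans h3) h2 (norm_nonneg _) (by positivity)
  refine (Finset.sum_le_sum h1).trans ?_
  rw [← Finset.mul_sum]
  refine mul_le_mul_of_nonneg_left ?_ (by positivity)
  rw [← Nat.cast_sum, ← hc]
  push_cast
  exact le_refl _

/-- the large sieve for `k`-th powers -/
theorem pw_main (DD : Finset ℕ) (D : ℕ) (hD : ∀ d ∈ DD, 1 ≤ d ∧ d ≤ D) (hD1 : 1 ≤ D)
    (ψ : ∀ d : ℕ, DirichletCharacter ℂ d) (hψ : ∀ d ∈ DD, (ψ d).IsPrimitive)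
    (S : Finset ℕ) (Q : ℕ) (hS : ∀ q ∈ S, q.Prime ∧ q ≤ Q) (a : ℕ → ℂ)
    (ha : ∀ q, ‖a q‖ ≤ 1) (k : ℕ) :
    ∑ d ∈ DD, ‖∑ q ∈ S, a q * ψ d (q : ZMod d)‖ ^ (2 * k) ≤
      22 * ((Q : ℝ) ^ k + (D : ℝ) ^ 2) * ((k.factorial : ℝ) * (S.card : ℝ) ^ k) := by
  have h1 := mlsP DD D hD hD1 (pwb S a k) 0 (Q ^ k)
  have h2 : ∑ d ∈ DD, ‖∑ q ∈ S, a q * ψ d (q : ZMod d)‖ ^ (2 * k) ≤
      ∑ d ∈ DD, ∑ χ ∈ Pr d, ((d:ℝ) / Nat.totient d) *
        ‖∑ m ∈ Finset.Ioc 0 (0 + Q ^ k), pwb S a k m * χ (m : ZMod d)‖ ^ 2 := by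
    refine Finset.sum_le_sum fun d hd => ?_
    have hd1 := (hD d hd).1
    have hφ : (0:ℝ) < Nat.totient d := by exact_mod_cast Nat.totient_pos.mpr hd1
    have hle : (1:ℝ) ≤ (d:ℝ) / Nat.totient d := by
      rw [le_div_iff₀ hφ, one_mul]
      exact_mod_cast Nat.totient_le d
    have h3 : ‖∑ q ∈ S, a q * ψ d (q : ZMod d)‖ ^ (2 * k) =
        ‖∑ m ∈ Finset.Ioc 0 (0 + Q ^ k), pwb S a k m * ψ d (m : ZMod d)‖ ^ 2 := by
      rw [← pw_pow S Q hS a k (ψ d), norm_pow, ← pow_mul, mul_comm]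
    rw [h3]
    have h4 : ‖∑ m ∈ Finset.Ioc 0 (0 + Q ^ k), pwb S a k m * ψ d (m : ZMod d)‖ ^ 2 ≤
        ((d:ℝ) / Nat.totient d) *
          ‖∑ m ∈ Finset.Ioc 0 (0 + Q ^ k), pwb S a k m * ψ d (m : ZMod d)‖ ^ 2 :=
      le_mul_of_one_le_left (by positivity) hle
    refine h4.trans ?_
    exact Finset.single_le_sum (f := fun χ => ((d:ℝ) / Nat.totient d) *
        ‖∑ m ∈ Finset.Ioc 0 (0 + Q ^ k), pwb S a k m * χ (m : ZMod d)‖ ^ 2)
      (fun χ _ => by positivity) ((mem_Pr _).2 (hψ d hd))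
  refine h2.trans (h1.trans ?_)
  have h5 := pw_sq S Q hS a ha k
  push_cast at h5 ⊢
  exact mul_le_mul_of_nonneg_left h5 (by positivity)

/-- the first moment -/
theorem pw_first (DD : Finset ℕ) (D : ℕ) (hD : ∀ d ∈ DD, 1 ≤ d ∧ d ≤ D) (hD1 : 1 ≤ D)
    (ψ : ∀ d : ℕ, DirichletCharacter ℂ d) (hψ : ∀ d ∈ DD, (ψ d).IsPrimitive)
    (S : Finset ℕ) (Q : ℕ) (hS : ∀ q ∈ S, q.Prime ∧ q ≤ Q) (a : ℕ → ℂ)
    (ha : ∀ q, ‖a q‖ ≤ 1) (k : ℕ) (hk : 1 ≤ k) (hQ : D ^ 2 ≤ Q ^ k) :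
    (∑ d ∈ DD, ‖∑ q ∈ S, a q * ψ d (q : ZMod d)‖) ^ (2 * k) * D ≤
      44 * (k : ℝ) ^ k * ((D : ℝ) * Q) ^ (2 * k) := by
  have h1 := pw_main DD D hD hD1 ψ hψ S Q hS a ha k
  set F : ℕ → ℝ := fun d => ‖∑ q ∈ S, a q * ψ d (q : ZMod d)‖ with hF
  obtain ⟨n, hn⟩ : ∃ n, 2 * k = n + 1 := ⟨2 * k - 1, by omega⟩
  have hcardD : (DD.card : ℝ) ≤ D := by
    have : DD ⊆ Finset.Icc 1 D := fun d hd => Finset.mem_Icc.2 (hD d hd)
    have h := Finset.card_le_card this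
    rw [Nat.card_Icc] at h
    have : DD.card ≤ D := by omega
    exact_mod_cast this
  have hcardS : (S.card : ℝ) ≤ Q := by
    have : S ⊆ Finset.Icc 1 Q := fun q hq => Finset.mem_Icc.2 ⟨(hS q hq).1.one_lt.le, (hS q hq).2⟩
    have h := Finset.card_le_card this
    rw [Nat.card_Icc] at h
    have : S.card ≤ Q := by omega
    exact_mod_cast this
  have h2 : (∑ d ∈ DD, F d) ^ (n + 1) ≤ (DD.card : ℝ) ^ n * ∑ d ∈ DD, F d ^ (n + 1) :=
    pow_sum_le_card_mul_sum_pow (fun d _ => norm_nonneg _) n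
  have hk1 : (k.factorial : ℝ) ≤ (k : ℝ) ^ k := by exact_mod_cast Nat.factorial_le_pow k
  have hQ' : (D : ℝ) ^ 2 ≤ (Q : ℝ) ^ k := by exact_mod_cast hQ
  have h3 : ∑ d ∈ DD, F d ^ (n + 1) ≤ 44 * (k : ℝ) ^ k * (Q : ℝ) ^ (2 * k) := by
    rw [← hn]
    refine h1.trans ?_
    calc 22 * ((Q : ℝ) ^ k + (D : ℝ) ^ 2) * ((k.factorial : ℝ) * (S.card : ℝ) ^ k)
        ≤ 22 * ((Q : ℝ) ^ k + (Q : ℝ) ^ k) * ((k : ℝ) ^ k * (Q : ℝ) ^ k) := by gcongr
      _ = 44 * (k : ℝ) ^ k * (Q : ℝ) ^ (2 * k) := by rw [two_mul k, pow_add]; ring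
  have h4 : (∑ d ∈ DD, F d) ^ (2 * k) ≤ (D : ℝ) ^ n * (44 * (k : ℝ) ^ k * (Q : ℝ) ^ (2 * k)) := by
    rw [hn]
    refine h2.trans ?_
    rw [← hn]
    rw [← hn] at h3
    refine mul_le_mul (pow_le_pow_left₀ (by positivity) hcardD n) h3 ?_ (by positivity)
    exact Finset.sum_nonneg fun d _ => by positivity
  calc (∑ d ∈ DD, F d) ^ (2 * k) * D
      ≤ ((D : ℝ) ^ n * (44 * (k : ℝ) ^ k * (Q : ℝ) ^ (2 * k))) * D :=
        mul_le_mul_of_nonneg_right h4 (by positivity)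
    _ = 44 * (k : ℝ) ^ k * ((D : ℝ) * Q) ^ (2 * k) := by
        rw [mul_pow, hn, pow_succ (D : ℝ) n]; ring

/-- non trivial characters modulo a prime are primitive -/
theorem pw_prim {p : ℕ} (hp : p.Prime) (ψ : DirichletCharacter ℂ p) (h : ψ ≠ 1) :
    ψ.IsPrimitive := by
  haveI : NeZero p := ⟨hp.ne_zero⟩
  rw [DirichletCharacter.isPrimitive_def]
  rcases (Nat.dvd_prime hp).1 ψ.conductor_dvd_level with h1 | h1
  · exact absurd (DirichletCharacter.eq_one_iff_conductor_eq_one.2 h1) h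
  · exact h1

end Pool.Agent.CPQ87
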